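import Mathlib

/-!
# A non-trivial integer matrix `A` with `det A = det A∘3 = 1`
-/

namespace Pool.Agent.Results.MP_52c232_nt.FiveByFive

/-- There are an `n ≥ 1` and an `n × n` integer matrix `A`, no entry of which is `-1`, `0` or `1`,
with `det A = 1` and `det (A∘3) = 1`, where `A∘3` is the matrix of the cubes of the entries. -/
theorem result : ∃ (n : ℕ) (A : Matrix (Fin n) (Fin n) ℤ), 1 ≤ n ∧
    (∀ i j, A i j ≠ -1 ∧ A i j ≠ 0 ∧ A i j ≠ 1) ∧
    A.det = 1 ∧ (A.map (fun a => a ^ 3)).det = 1 := by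
  refine ⟨5, !![-3, -4, 5, -4, -3; -2, -2, 5, -4, -2; 2, -3, 2, -2, -2; -3, -2, 4, -3, -2;
    3, -4, -6, 5, -3], by norm_num, ?_, ?_, ?_⟩
  · decide
  · simp [Matrix.det_succ_row_zero, Fin.sum_univ_succ, Fin.succAbove]
  · simp [Matrix.det_succ_row_zero, Fin.sum_univ_succ, Fin.succAbove]

end Pool.Agent.Results.MP_52c232_nt.FiveByFive
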